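import Pool.Agent.Y782.UG.Stm

set_option autoImplicit false

open MeasureTheory ProbabilityTheory Filter Topology
open scoped ENNReal BigOperators

namespace Pool.Agent.Y468.UG
open Pool.Agent.Y782.UG

variable {Δ : ℕ}

lemma measurable_mk : Measurable (fun x : Fin (Δ + 1) × (ℕ → Tr Δ) => mk x.1 x.2) := by
  refine measurable_pi_iff.2 (fun w => ?_)
  cases w with
  | nil => exact measurable_fst
  | cons a w =>
    show Measurable (fun x : Fin (Δ + 1) × (ℕ → Tr Δ) => x.2 a w)
    exact (measurable_pi_apply w).comp ((measurable_pi_apply a).comp measurable_snd)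

lemma QN_box (ph : Measure (Fin (Δ + 1))) [IsProbabilityMeasure ph] (s' : Finset (ℕ × List ℕ))
    (t' : ℕ × List ℕ → Set (Fin (Δ + 1))) (ht : ∀ i, MeasurableSet (t' i)) :
    Measure.infinitePi (fun _ : ℕ => Q ph) {c | ∀ x ∈ s', c x.1 x.2 ∈ t' x}
      = ∏ x ∈ s', ph (t' x) := by
  have h := Measure.infinitePi_map_curry_symm (ι := ℕ) (κ := List ℕ) (X := Fin (Δ + 1))
    (fun _ _ => ph)
  have h2 := Measure.infinitePi_pi (μ := fun _ : ℕ × List ℕ => ph) (s := s') (t := t')
    (fun i _ => ht i)
  rw [← h, Measure.map_apply (by fun_prop)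
    (MeasurableSet.pi s'.countable_toSet (fun i _ => ht i))] at h2
  rw [← h2]
  unfold Q
  congr 1

lemma dec1 (p ph : Measure (Fin (Δ + 1))) [IsProbabilityMeasure p] [IsProbabilityMeasure ph] :
    Measure.infinitePi (lw p ph) = Q0 p ph := by
  classical
  symm
  refine Measure.eq_infinitePi _ (fun s t ht => ?_)
  have hinj : Function.Injective (fun x : ℕ × List ℕ => x.1 :: x.2) := by
    rintro ⟨a, w⟩ ⟨b, v⟩ h
    simp only [List.cons.injEq] at h
    exact Prod.ext h.1 h.2
  set s' : Finset (ℕ × List ℕ) := s.preimage (fun x : ℕ × List ℕ => x.1 :: x.2) hinj.injOn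
    with hs'
  have hpre : (fun x : Fin (Δ + 1) × (ℕ → Tr Δ) => mk x.1 x.2) ⁻¹' (Set.pi (s : Set (List ℕ)) t)
      = {k | [] ∈ s → k ∈ t []} ×ˢ {c : ℕ → Tr Δ | ∀ x ∈ s', c x.1 x.2 ∈ t (x.1 :: x.2)} := by
    ext ⟨k, c⟩
    simp only [Set.mem_preimage, Set.mem_pi, Set.mem_prod, Set.mem_ofPred_eq, hs',
      Finset.mem_preimage, Finset.mem_coe]
    constructor
    · intro h
      exact ⟨fun h0 => h [] h0, fun x hx => h _ hx⟩
    · rintro ⟨h1, h2⟩ w hw
      cases w with
      | nil => exact h1 hw
      | cons a w => exact h2 (a, w) hw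
  unfold Q0
  rw [Measure.map_apply measurable_mk (MeasurableSet.pi s.countable_toSet (fun i _ => ht i)), hpre,
    Measure.prod_prod, QN_box ph s' (fun x => t (x.1 :: x.2)) (fun _ => ht _)]
  have h3 : ∏ x ∈ s', ph (t (x.1 :: x.2)) = ∏ w ∈ s.filter (fun w => w ≠ []), lw p ph w (t w) := by
    refine Finset.prod_bij (fun x _ => x.1 :: x.2) ?_ ?_ ?_ ?_
    · intro x hx
      rw [hs', Finset.mem_preimage] at hx
      simp [hx]
    · intro a _ b _ h
      exact hinj h
    · intro w hw
      rw [Finset.mem_filter] at hw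
      cases w with
      | nil => exact absurd rfl hw.2
      | cons a w =>
        refine ⟨(a, w), ?_, rfl⟩
        rw [hs', Finset.mem_preimage]
        exact hw.1
    · intro x _
      rfl
  rw [h3, ← Finset.prod_filter_mul_prod_filter_not s (fun w => w ≠ []), mul_comm]
  congr 1
  by_cases h0 : [] ∈ s
  · have : s.filter (fun w => ¬ w ≠ []) = {[]} := by
      ext w
      simp only [Finset.mem_filter, not_not, Finset.mem_singleton]
      constructor
      · exact fun h => h.2
      · rintro rfl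
        exact ⟨h0, rfl⟩
    rw [this, Finset.prod_singleton]
    simp [h0, lw]
  · have : s.filter (fun w => ¬ w ≠ []) = ∅ := by
      ext w
      simp only [Finset.mem_filter, not_not, Finset.notMem_empty, iff_false, not_and]
      rintro h rfl
      exact h0 h
    rw [this, Finset.prod_empty]
    simp [h0]

lemma dec2 (ph : Measure (Fin (Δ + 1))) [IsProbabilityMeasure ph] :
    Q0 ph ph = Q ph := by
  rw [← dec1]
  unfold Q
  refine Measure.eq_infinitePi _ (fun s t ht => ?_)
  rw [Measure.infinitePi_pi _ (fun i _ => ht i)]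
  refine Finset.prod_congr rfl (fun w _ => ?_)
  cases w <;> rfl

theorem dec : S_DEC := fun _ p ph _ _ => ⟨dec1 p ph, dec2 ph⟩

end Pool.Agent.Y468.UG
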