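import Pool.Agent.Y782.UG.Stm

set_option autoImplicit false

open MeasureTheory ProbabilityTheory Filter Topology
open scoped ENNReal BigOperators

namespace Pool.Agent.Y468.UG
open Pool.Agent.Y782.UG

variable {Δ : ℕ}

/-- skip the index `i` -/
def skip (i a : ℕ) : ℕ := if a < i then a else a + 1

lemma skip_ne (i a : ℕ) : skip i a ≠ i := by
  unfold skip; split_ifs <;> omega

lemma skip_inj (i : ℕ) : Function.Injective (skip i) := by
  intro a b h
  unfold skip at h
  split_ifs at h <;> omega

lemma skip_surj (i j : ℕ) (h : j ≠ i) : ∃ a, skip i a = j := by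
  rcases lt_or_gt_of_ne h with h | h
  · exact ⟨j, by unfold skip; rw [if_pos h]⟩
  · exact ⟨j - 1, by unfold skip; rw [if_neg (by omega)]; omega⟩

/-- insert `u` at the place `i` -/
def ins {X : Type*} (i : ℕ) (x : X × (ℕ → X)) : ℕ → X :=
  fun j => if j < i then x.2 j else if j = i then x.1 else x.2 (j - 1)

lemma ins_self {X : Type*} (i : ℕ) (x : X × (ℕ → X)) : ins i x i = x.1 := by
  unfold ins; rw [if_neg (lt_irrefl _), if_pos rfl]

lemma ins_skip {X : Type*} (i : ℕ) (x : X × (ℕ → X)) (a : ℕ) : ins i x (skip i a) = x.2 a := by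
  unfold ins skip
  by_cases h : a < i
  · rw [if_pos h, if_pos h]
  · rw [if_neg h, if_neg (by omega), if_neg (by omega)]
    rfl

lemma measurable_ins {X : Type*} [MeasurableSpace X] (i : ℕ) :
    Measurable (ins i : X × (ℕ → X) → (ℕ → X)) := by
  refine measurable_pi_iff.2 (fun j => ?_)
  unfold ins
  by_cases h : j < i
  · simp only [h, if_true]
    exact (measurable_pi_apply j).comp measurable_snd
  · by_cases h2 : j = i
    · simp only [h2, lt_irrefl, if_false, if_true]
      exact measurable_fst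
    · simp only [h, h2, if_false]
      exact (measurable_pi_apply (j - 1)).comp measurable_snd

lemma map_ins {X : Type*} [MeasurableSpace X] (ν : Measure X) [IsProbabilityMeasure ν] (i : ℕ) :
    (ν.prod (Measure.infinitePi (fun _ : ℕ => ν))).map (ins i)
      = Measure.infinitePi (fun _ : ℕ => ν) := by
  classical
  refine Measure.eq_infinitePi _ (fun s t ht => ?_)
  set s' : Finset ℕ := s.preimage (skip i) (skip_inj i).injOn with hs'
  have hpre : (ins i : X × (ℕ → X) → (ℕ → X)) ⁻¹' (Set.pi (s : Set ℕ) t)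
      = {u | i ∈ s → u ∈ t i} ×ˢ (Set.pi (s' : Set ℕ) (fun a => t (skip i a))) := by
    ext ⟨u, c⟩
    simp only [Set.mem_preimage, Set.mem_pi, Set.mem_prod, Set.mem_ofPred_eq, hs',
      Finset.mem_coe, Finset.mem_preimage]
    constructor
    · intro h
      refine ⟨fun h0 => ?_, fun a ha => ?_⟩
      · have := h i h0
        rwa [ins_self] at this
      · have := h _ ha
        rwa [ins_skip] at this
    · rintro ⟨h1, h2⟩ j hj
      by_cases hji : j = i
      · subst hji
        rw [ins_self]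
        exact h1 hj
      · obtain ⟨a, rfl⟩ := skip_surj i j hji
        rw [ins_skip]
        exact h2 a hj
  rw [Measure.map_apply (measurable_ins i) (MeasurableSet.pi s.countable_toSet (fun i _ => ht i)),
    hpre, Measure.prod_prod, Measure.infinitePi_pi _ (fun _ _ => ht _)]
  have h3 : ∏ a ∈ s', ν (t (skip i a)) = ∏ j ∈ s.filter (fun j => j ≠ i), ν (t j) := by
    refine Finset.prod_bij (fun a _ => skip i a) ?_ ?_ ?_ ?_
    · intro a ha
      rw [hs', Finset.mem_preimage] at ha
      simp [ha, skip_ne]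
    · intro a _ b _ h
      exact skip_inj i h
    · intro j hj
      rw [Finset.mem_filter] at hj
      obtain ⟨a, rfl⟩ := skip_surj i j hj.2
      refine ⟨a, ?_, rfl⟩
      rw [hs', Finset.mem_preimage]
      exact hj.1
    · intro x _
      rfl
  rw [h3, ← Finset.prod_filter_mul_prod_filter_not s (fun j => j ≠ i), mul_comm]
  congr 1
  by_cases h0 : i ∈ s
  · have : s.filter (fun j => ¬ j ≠ i) = {i} := by
      ext w
      simp only [Finset.mem_filter, not_not, Finset.mem_singleton]
      constructor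
      · exact fun h => h.2
      · rintro rfl
        exact ⟨h0, rfl⟩
    rw [this, Finset.prod_singleton]
    simp [h0]
  · have : s.filter (fun j => ¬ j ≠ i) = ∅ := by
      ext w
      simp only [Finset.mem_filter, not_not, Finset.notMem_empty, iff_false, not_and]
      rintro h rfl
      exact h0 h
    rw [this, Finset.prod_empty]
    simp [h0]

lemma measurable_split {X : Type*} [MeasurableSpace X] (i : ℕ) :
    Measurable (fun c : ℕ → X => (c i, fun a => c (skip i a))) :=
  (measurable_pi_apply i).prodMk (measurable_pi_iff.2 (fun a => measurable_pi_apply (skip i a)))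

lemma map_split {X : Type*} [MeasurableSpace X] (ν : Measure X) [IsProbabilityMeasure ν] (i : ℕ) :
    (Measure.infinitePi (fun _ : ℕ => ν)).map (fun c : ℕ → X => (c i, fun a => c (skip i a)))
      = ν.prod (Measure.infinitePi (fun _ : ℕ => ν)) := by
  conv_lhs => rw [← map_ins ν i]
  rw [Measure.map_map (measurable_split i) (measurable_ins i)]
  have : ((fun c : ℕ → X => (c i, fun a => c (skip i a))) ∘ (ins i)) = id := by
    funext x
    simp only [Function.comp, ins_self, ins_skip, id]
  rw [this, Measure.map_id]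

lemma measurable_mk' : Measurable (fun x : Fin (Δ + 1) × (ℕ → Tr Δ) => mk x.1 x.2) := by
  refine measurable_pi_iff.2 (fun w => ?_)
  cases w with
  | nil => exact measurable_fst
  | cons a w =>
    show Measurable (fun x : Fin (Δ + 1) × (ℕ → Tr Δ) => x.2 a w)
    exact (measurable_pi_apply w).comp ((measurable_pi_apply a).comp measurable_snd)

lemma measurable_sub' (i : ℕ) : Measurable (fun t : Tr Δ => sub t i) :=
  measurable_pi_iff.2 (fun w => measurable_pi_apply (i :: w))

lemma measurable_rem (i : ℕ) : Measurable (fun t : Tr Δ => rem t i) := by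
  refine measurable_pi_iff.2 (fun w => ?_)
  cases w with
  | nil =>
    exact (measurable_from_top (f := fun k : Fin (Δ + 1) =>
      (⟨(k : ℕ) - 1, lt_of_le_of_lt (Nat.sub_le _ _) k.isLt⟩ : Fin (Δ + 1)))).comp
      (measurable_pi_apply [])
  | cons a w => exact measurable_pi_apply _

lemma measurable_nch : Measurable (nch : Tr Δ → ℕ) :=
  (measurable_from_top (f := fun k : Fin (Δ + 1) => (k : ℕ))).comp (measurable_pi_apply [])

lemma measurable_sum (f : ℕ → Tr Δ → ℝ≥0∞) (hf : ∀ i, Measurable (f i)) :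
    Measurable (fun t : Tr Δ => ∑ i ∈ Finset.range (nch t), f i t) := by
  classical
  have : (fun t : Tr Δ => ∑ i ∈ Finset.range (nch t), f i t)
      = fun t => ∑ i ∈ Finset.range (Δ + 1), (if i < nch t then f i t else 0) := by
    funext t
    rw [← Finset.sum_filter]
    refine Finset.sum_congr ?_ (fun _ _ => rfl)
    ext i
    simp only [Finset.mem_range, Finset.mem_filter]
    have : nch t < Δ + 1 := (t []).isLt
    omega
  rw [this]
  refine Finset.measurable_fun_sum _ (fun i _ => ?_)
  exact Measurable.ite (measurableSet_lt measurable_const measurable_nch) (hf i) measurable_const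

lemma rem_mk (k : Fin (Δ + 1)) (c : ℕ → Tr Δ) (i : ℕ) :
    rem (mk k c) i = mk (cap Δ ((k : ℕ) - 1)) (fun a => c (skip i a)) := by
  funext w
  cases w with
  | nil =>
    show (⟨(k : ℕ) - 1, _⟩ : Fin (Δ + 1)) = cap Δ ((k : ℕ) - 1)
    apply Fin.ext
    show (k : ℕ) - 1 = min ((k : ℕ) - 1) Δ
    have := k.isLt
    omega
  | cons a w => rfl

lemma cap_fin (j : Fin (Δ + 1)) : cap Δ (j : ℕ) = j := by
  apply Fin.ext
  show min (j : ℕ) Δ = j
  have := j.isLt
  omega

lemma lintegral_Q0 (p ph : Measure (Fin (Δ + 1))) [IsProbabilityMeasure p]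
    [IsProbabilityMeasure ph] (f : Tr Δ → ℝ≥0∞) (hf : Measurable f) :
    ∫⁻ t, f t ∂(Q0 p ph)
      = ∫⁻ k, ∫⁻ c, f (mk k c) ∂(Measure.infinitePi (fun _ : ℕ => Q ph)) ∂p := by
  unfold Q0
  rw [lintegral_map hf measurable_mk']
  exact lintegral_prod _ (hf.comp measurable_mk').aemeasurable

theorem tr (h : S_DEC) : S_TR := by
  intro Δ p ph _ _ mb hSB Φ hΦ
  set QN : Measure (ℕ → Tr Δ) := Measure.infinitePi (fun _ : ℕ => Q ph) with hQN
  have hmeas : Measurable (fun t : Tr Δ => ∑ i ∈ Finset.range (nch t), Φ (sub t i) (rem t i)) :=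
    measurable_sum (fun i t => Φ (sub t i) (rem t i))
      (fun i => hΦ.comp ((measurable_sub' i).prodMk (measurable_rem i)))
  rw [lintegral_Q0 p ph _ hmeas]
  set F : ℕ → ℝ≥0∞ := fun j => ∫⁻ u, ∫⁻ c, Φ u (mk (cap Δ j) c) ∂QN ∂(Q ph) with hF
  have hmkc : ∀ j : Fin (Δ + 1), Measurable (fun x : Tr Δ × (ℕ → Tr Δ) => Φ x.1 (mk j x.2)) := by
    intro j
    exact hΦ.comp (measurable_fst.prodMk
      (measurable_mk'.comp (measurable_const.prodMk measurable_snd)))
  have hk : ∀ k : Fin (Δ + 1),
      ∫⁻ c, ∑ i ∈ Finset.range (nch (mk k c)), Φ (sub (mk k c) i) (rem (mk k c) i) ∂QN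
        = ((k : ℕ) : ℝ≥0∞) * F ((k : ℕ) - 1) := by
    intro k
    have h1 : ∀ c : ℕ → Tr Δ, ∑ i ∈ Finset.range (nch (mk k c)),
        Φ (sub (mk k c) i) (rem (mk k c) i)
        = ∑ i ∈ Finset.range (k : ℕ), Φ (c i) (mk (cap Δ ((k : ℕ) - 1)) (fun a => c (skip i a))) := by
      intro c
      show ∑ i ∈ Finset.range (k : ℕ), Φ (c i) (rem (mk k c) i) = _
      refine Finset.sum_congr rfl (fun i _ => ?_)
      rw [rem_mk]
    simp_rw [h1]
    have hms : ∀ i ∈ Finset.range (k : ℕ), Measurable (fun c : ℕ → Tr Δ =>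
        Φ (c i) (mk (cap Δ ((k : ℕ) - 1)) (fun a => c (skip i a)))) :=
      fun i _ => (hmkc (cap Δ ((k : ℕ) - 1))).comp (measurable_split i)
    rw [lintegral_finsetSum _ hms]
    rw [Finset.sum_congr rfl (g := fun _ => F ((k : ℕ) - 1)), Finset.sum_const,
      Finset.card_range, nsmul_eq_mul]
    intro i _
    have h2 := lintegral_map (μ := QN) (hmkc (cap Δ ((k : ℕ) - 1))) (measurable_split (X := Tr Δ) i)
    rw [hQN, map_split] at h2
    rw [← hQN] at h2
    rw [← h2, lintegral_prod _ (hmkc _).aemeasurable]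
  rw [lintegral_congr hk]
  rw [hSB.bias F]
  congr 1
  have h4 : ∀ u, ∫⁻ v, Φ u v ∂(Q ph) = ∫⁻ j, ∫⁻ c, Φ u (mk j c) ∂QN ∂ph := by
    intro u
    have hu : Measurable (fun v => Φ u v) := hΦ.comp (measurable_const.prodMk measurable_id)
    rw [← (h Δ ph ph).2]
    exact lintegral_Q0 ph ph _ hu
  simp_rw [h4]
  have h6 : ∀ j : Fin (Δ + 1), F (j : ℕ) = ∫⁻ u, ∫⁻ c, Φ u (mk j c) ∂QN ∂(Q ph) := by
    intro j
    simp only [hF, cap_fin]
  rw [lintegral_congr h6]
  refine lintegral_lintegral_swap (Measurable.aemeasurable ?_)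
  have h5 : Measurable (fun x : (Fin (Δ + 1) × Tr Δ) × (ℕ → Tr Δ) => Φ x.1.2 (mk x.1.1 x.2)) :=
    hΦ.comp ((measurable_snd.comp measurable_fst).prodMk
      (measurable_mk'.comp ((measurable_fst.comp measurable_fst).prodMk measurable_snd)))
  exact h5.lintegral_prod_right'

end Pool.Agent.Y468.UG
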