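import Pool.Agent.Y782.UG.Base2

set_option autoImplicit false

open MeasureTheory ProbabilityTheory Filter Topology
open scoped ENNReal BigOperators

namespace Pool.Agent.Y468.UG
open Pool.Agent.Y782.UG

lemma meas_mk {Δ : ℕ} : Measurable (fun x : Fin (Δ + 1) × (ℕ → Tr Δ) => mk x.1 x.2) := by
  refine measurable_pi_iff.2 (fun w => ?_)
  cases w with
  | nil => exact measurable_fst
  | cons a w =>
    show Measurable (fun x : Fin (Δ + 1) × (ℕ → Tr Δ) => x.2 a w)
    exact (measurable_pi_apply w).comp ((measurable_pi_apply a).comp measurable_snd)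

theorem xi (h : S_DEC) : S_XI := by
  intro Δ p ph _ _ mb hSB hT lam m r D F hTyp hI
  classical
  by_cases hx : Q ph {u | 0 < m u} = 0
  · exact measure_mono_null (fun u hu => hu.1) hx
  have hP : MeasurableSet {u : Tr Δ | 0 < m u} := measurableSet_lt measurable_const hTyp.mm
  set Y : Set (Tr Δ) := {u | ∃ j < nch u, sub u j ∈ {u : Tr Δ | 0 < m u}} with hYdef
  have hYm : MeasurableSet Y := measurableSet_ex hP
  set Z : Set (Tr Δ) := {u | 0 < m u ∧ size r u = ⊤} with hZdef
  have hZm : MeasurableSet Z :=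
    hP.inter (measurable_size hTyp.mr (MeasurableSet.of_discrete (s := {(⊤ : ℕ∞)})))
  have hY : Q ph Y ≠ 0 := by
    intro h0
    apply hx
    rw [← (h Δ ph ph).2] at h0
    unfold Q0 at h0
    rw [Measure.map_apply meas_mk hYm] at h0
    have h1 : ({k : Fin (Δ + 1) | 1 ≤ (k : ℕ)} ×ˢ {c : ℕ → Tr Δ | 0 < m (c 0)})
        ⊆ (fun x : Fin (Δ + 1) × (ℕ → Tr Δ) => mk x.1 x.2) ⁻¹' Y := by
      rintro ⟨k, c⟩ ⟨hk, hc⟩
      exact ⟨0, hk, hc⟩
    have h2 := measure_mono_null h1 h0
    rw [Measure.prod_prod, mul_eq_zero] at h2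
    have h3 : ph {k : Fin (Δ + 1) | 1 ≤ (k : ℕ)} ≠ 0 := by
      intro h4
      have h5 : ph Set.univ = 0 := by
        have : (Set.univ : Set (Fin (Δ + 1)))
            = {k : Fin (Δ + 1) | (k : ℕ) < 1} ∪ {k : Fin (Δ + 1) | 1 ≤ (k : ℕ)} := by
          ext k
          simp only [Set.mem_univ, Set.mem_union, Set.mem_ofPred_eq, true_iff]
          omega
        rw [this]
        exact measure_union_null hSB.ph1 h4
      rw [measure_univ] at h5
      exact one_ne_zero h5
    have h6 := h2.resolve_left h3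
    have h7 := (measurePreserving_eval_infinitePi (fun _ : ℕ => Q ph) 0).measure_preimage
      hP.nullMeasurableSet
    rw [← h7]
    exact h6
  have hΦ : Measurable (fun x : Tr Δ × Tr Δ =>
      Y.indicator (fun _ => (1 : ℝ≥0∞)) x.1 * Z.indicator (fun _ => (1 : ℝ≥0∞)) x.2) :=
    ((measurable_const.indicator hYm).comp measurable_fst).mul
      ((measurable_const.indicator hZm).comp measurable_snd)
  have key := hT (fun u v => Y.indicator (fun _ => (1 : ℝ≥0∞)) u *
    Z.indicator (fun _ => (1 : ℝ≥0∞)) v) hΦ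
  have hR : ∫⁻ u, ∫⁻ v, Y.indicator (fun _ => (1 : ℝ≥0∞)) u *
      Z.indicator (fun _ => (1 : ℝ≥0∞)) v ∂(Q ph) ∂(Q ph) = Q ph Y * Q ph Z := by
    have h1 : ∀ u, ∫⁻ v, Y.indicator (fun _ => (1 : ℝ≥0∞)) u *
        Z.indicator (fun _ => (1 : ℝ≥0∞)) v ∂(Q ph) =
        Y.indicator (fun _ => (1 : ℝ≥0∞)) u * Q ph Z := by
      intro u
      rw [lintegral_const_mul _ (measurable_const.indicator hZm), lintegral_indicator hZm]
      simp
    simp_rw [h1]
    rw [lintegral_mul_const _ (measurable_const.indicator hYm), lintegral_indicator hYm]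
    simp
  have hL : ∫⁻ t, ∑ i ∈ Finset.range (nch t), Y.indicator (fun _ => (1 : ℝ≥0∞)) (sub t i) *
      Z.indicator (fun _ => (1 : ℝ≥0∞)) (rem t i) ∂(Q0 p ph) = 0 := by
    apply lintegral_eq_zero_of_ae_eq_zero
    rw [Filter.EventuallyEq, ae_iff]
    refine measure_mono_null ?_ hI
    intro t ht
    have ht' : ∑ i ∈ Finset.range (nch t), Y.indicator (fun _ => (1 : ℝ≥0∞)) (sub t i) *
      Z.indicator (fun _ => (1 : ℝ≥0∞)) (rem t i) ≠ 0 := ht
    obtain ⟨i, hi, hne⟩ := Finset.exists_ne_zero_of_sum_ne_zero ht'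
    have h1 : sub t i ∈ Y := by
      by_contra hc
      rw [Set.indicator_of_notMem hc, zero_mul] at hne
      exact hne rfl
    have h2 : rem t i ∈ Z := by
      by_contra hc
      rw [Set.indicator_of_notMem hc, mul_zero] at hne
      exact hne rfl
    have hi' := Finset.mem_range.1 hi
    obtain ⟨g1, g2⟩ := back hTyp t hi' h1 h2.1
    refine ⟨g1, ?_⟩
    show size r t = ⊤
    rw [size_rem_zero r t hi' g2]
    exact h2.2
  rw [hR, hL] at key
  have h8 := (mul_eq_zero.1 key.symm).resolve_left hSB.mbpos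
  exact (mul_eq_zero.1 h8).resolve_left hY

end Pool.Agent.Y468.UG
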